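import Pool.Agent.N176.OW.Stm3
import Pool.Agent.N176.GP.Pair

/-!
# Pairs of exponents at all distances
-/

set_option autoImplicit false

namespace Pool.Agent.N456.OW

open Finset Filter Topology MeasureTheory
open Pool.Agent.N176.GP (cnt XX NB MB sum_cells sum_div XX_nonneg cnt_eq cell_pair)
open Pool.Agent.N176.OW

/-! ### preparation -/

lemma sum_cell (B m : ℕ) (g : ℕ → ℝ) :
    ∑ n ∈ Ico (m * B) ((m + 1) * B), g n = ∑ r ∈ range B, g (m * B + r) := by
  rw [sum_cells B m (m + 1) (Nat.le_succ m)]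
  simp

/-- an interval of multiples is a union of cells -/
lemma split_cells {b : ℕ} (m z q A B : ℕ) (hmz : m ≤ z) (hzq : z ≤ q) (hAB : A ≤ B) (g : ℕ → ℝ) :
    ∑ n ∈ Ico (A * b ^ (q - m)) (B * b ^ (q - m)), g n =
      ∑ j ∈ Ico (A * b ^ (z - m)) (B * b ^ (z - m)),
        ∑ n ∈ Ico (j * b ^ (q - z)) ((j + 1) * b ^ (q - z)), g n := by
  have e : b ^ (q - m) = b ^ (z - m) * b ^ (q - z) := by
    rw [← pow_add]; congr 1; omega
  rw [e, ← mul_assoc, ← mul_assoc, sum_cells _ _ _ (Nat.mul_le_mul_right _ hAB)]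
  exact Finset.sum_congr rfl fun j _ => (sum_cell _ _ _).symm

/-- the first part -/
lemma first_sum {b : ℕ} (hb : 2 ≤ b) {C : ℝ} (hC : 0 < C) {P : ℕ} (hP : ∀ q ≥ P, ∀ z : ℕ, 2 * z ≤ q →
      ∀ j : ℕ, 1 ≤ j → (cnt b z j q : ℝ) ≤ C * (Real.log q / q) * (b : ℝ) ^ (q - z))
    {m A B : ℕ} (hA : 1 ≤ A) (hAB : A < B) {p : ℕ} (hp : P ≤ p) (hmp : 2 * m ≤ p) :
    ∑ n ∈ Ico (A * b ^ (p - m)) (B * b ^ (p - m)), XX p n ≤
      ((B : ℝ) - A) * (C * (Real.log p / p)) * (b : ℝ) ^ p := by
  have hb1 : (1 : ℝ) ≤ b := by exact_mod_cast (by omega : 1 ≤ b)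
  rw [split_cells m m p A B le_rfl (by omega) hAB.le]
  have hlp : 0 ≤ Real.log p / p := div_nonneg (Real.log_natCast_nonneg p) (Nat.cast_nonneg p)
  have h1 : ∀ j ∈ Ico (A * b ^ (m - m)) (B * b ^ (m - m)),
      ∑ n ∈ Ico (j * b ^ (p - m)) ((j + 1) * b ^ (p - m)), XX p n ≤
        C * (Real.log p / p) * (b : ℝ) ^ p := by
    intro j hj
    rw [mem_Ico, Nat.sub_self, pow_zero, mul_one, mul_one] at hj
    rw [← cnt_eq]
    refine (hP p hp m hmp j (by omega)).trans ?_
    refine mul_le_mul_of_nonneg_left ?_ (by positivity)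
    exact pow_le_pow_right₀ hb1 (Nat.sub_le _ _)
  refine (Finset.sum_le_sum h1).trans (le_of_eq ?_)
  rw [Finset.sum_const, Nat.card_Ico, Nat.sub_self, pow_zero, mul_one, mul_one, nsmul_eq_mul,
    Nat.cast_sub hAB.le]
  ring

theorem pr (h : S_UP) : S_PR := by
  intro b hb m A B hA hAB
  obtain ⟨C1, hC1, P1, hup⟩ := h b hb
  obtain ⟨C2, hC2, P2, hcp⟩ := cell_pair hb
  have hb1 : (1 : ℝ) ≤ b := by exact_mod_cast (by omega : 1 ≤ b)
  have hb0 : (0 : ℝ) < b := by linarith
  have hbn : 0 < b := by omega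
  have hD : (0 : ℝ) < (B : ℝ) - A := by
    have : (A : ℝ) < B := by exact_mod_cast hAB
    linarith
  set D : ℝ := (B : ℝ) - A with hDdef
  set z0 : ℕ := m + B with hz0
  refine ⟨D * C1 + D * C1 * C1 + 2 * (D * C2), by positivity, max 2 (max P1 (max P2 (32 * z0))), ?_⟩
  intro p hp
  have hp2 : 2 ≤ p := (le_max_left _ _).trans hp
  have hpP1 : P1 ≤ p := (le_max_left _ _).trans ((le_max_right _ _).trans hp)
  have hpP2 : P2 ≤ p := (le_max_left _ _).trans ((le_max_right _ _).trans ((le_max_right _ _).trans hp))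
  have hpz : 32 * z0 ≤ p :=
    (le_max_right _ _).trans ((le_max_right _ _).trans ((le_max_right _ _).trans hp))
  have hmp : 2 * m ≤ p := by omega
  have hp0 : (0 : ℝ) < p := by exact_mod_cast (by omega : 0 < p)
  have hlp : 0 ≤ Real.log p / p := div_nonneg (Real.log_natCast_nonneg p) (Nat.cast_nonneg p)
  have hfirst := first_sum hb hC1 hup hA hAB hpP1 hmp
  constructor
  · intro t ht
    unfold Av
    have e : b ^ (t - m) = b ^ (p - m) * b ^ (t - p) := by
      rw [← pow_add]; congr 1; omega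
    rw [e, ← mul_assoc, ← mul_assoc, sum_div _ _ _ (by positivity) (Nat.mul_le_mul_right _ hAB.le)
      (XX p)]
    rw [div_le_iff₀ (by positivity)]
    have e2 : (b : ℝ) ^ t = (b : ℝ) ^ (t - p) * (b : ℝ) ^ p := by
      rw [← pow_add]; congr 1; omega
    rw [e2]
    push_cast
    have h3 : 0 < (b : ℝ) ^ (t - p) := by positivity
    have h4 : 0 < (b : ℝ) ^ p := by positivity
    calc (b : ℝ) ^ (t - p) * ∑ n ∈ Ico (A * b ^ (p - m)) (B * b ^ (p - m)), XX p n
        ≤ (b : ℝ) ^ (t - p) * (D * (C1 * (Real.log p / p)) * (b : ℝ) ^ p) :=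
          mul_le_mul_of_nonneg_left hfirst h3.le
      _ = D * C1 * (Real.log p / p) * ((b : ℝ) ^ (t - p) * (b : ℝ) ^ p) := by ring
      _ ≤ (D * C1 + D * C1 * C1 + 2 * (D * C2)) * (Real.log p / p) *
          ((b : ℝ) ^ (t - p) * (b : ℝ) ^ p) := by
          refine mul_le_mul_of_nonneg_right (mul_le_mul_of_nonneg_right ?_ hlp) (by positivity)
          have : 0 < D * C1 * C1 := by positivity
          have : 0 < D * C2 := by positivity
          linarith
  · intro q hq t ht
    have hq0 : (0 : ℝ) < q := by exact_mod_cast (by omega : 0 < q)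
    have hlq : 0 ≤ Real.log q / q := div_nonneg (Real.log_natCast_nonneg q) (Nat.cast_nonneg q)
    unfold Av
    have e : b ^ (t - m) = b ^ (q - m) * b ^ (t - q) := by
      rw [← pow_add]; congr 1; omega
    have e3 : ∀ n : ℕ, XX p (n / b ^ (t - p)) * XX q (n / b ^ (t - q)) =
        (fun k : ℕ => XX p (k / b ^ (q - p)) * XX q k) (n / b ^ (t - q)) := by
      intro n
      show _ = XX p (n / b ^ (t - q) / b ^ (q - p)) * XX q (n / b ^ (t - q))
      rw [Nat.div_div_eq_div_mul, ← pow_add]
      congr 4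
      omega
    rw [Finset.sum_congr rfl fun n _ => e3 n]
    rw [e, ← mul_assoc, ← mul_assoc, sum_div _ _ _ (by positivity) (Nat.mul_le_mul_right _ hAB.le)
      (fun k : ℕ => XX p (k / b ^ (q - p)) * XX q k)]
    rw [div_le_iff₀ (by positivity)]
    have e2 : (b : ℝ) ^ t = (b : ℝ) ^ (t - q) * (b : ℝ) ^ q := by
      rw [← pow_add]; congr 1; omega
    rw [e2]
    push_cast
    have h3 : 0 < (b : ℝ) ^ (t - q) := by positivity
    have h4 : 0 < (b : ℝ) ^ q := by positivity
    have hbh : 0 < (b : ℝ) ^ (q - p) := by positivity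
    -- the sum at the level `q`
    suffices hmain : ∑ k ∈ Ico (A * b ^ (q - m)) (B * b ^ (q - m)), XX p (k / b ^ (q - p)) * XX q k ≤
        (D * C1 + D * C1 * C1 + 2 * (D * C2)) * (Real.log p / p * (Real.log q / q) +
          Real.log p / p / (b : ℝ) ^ (q - p)) * (b : ℝ) ^ q by
      calc _ ≤ (b : ℝ) ^ (t - q) * ((D * C1 + D * C1 * C1 + 2 * (D * C2)) *
            (Real.log p / p * (Real.log q / q) + Real.log p / p / (b : ℝ) ^ (q - p)) *
              (b : ℝ) ^ q) := mul_le_mul_of_nonneg_left hmain h3.le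
        _ = _ := by ring
    have hR0 : 0 ≤ Real.log p / p * (Real.log q / q) := mul_nonneg hlp hlq
    have hR1 : 0 ≤ Real.log p / p / (b : ℝ) ^ (q - p) := div_nonneg hlp hbh.le
    have hc1 : 0 < D * C1 := by positivity
    have hc2 : 0 < D * C1 * C1 := by positivity
    have hc3 : 0 < D * C2 := by positivity
    by_cases hqp : 2 * p ≤ q
    · -- far
      rw [split_cells m p q A B (by omega) hq.le hAB.le]
      have h5 : ∀ j ∈ Ico (A * b ^ (p - m)) (B * b ^ (p - m)),
          ∑ n ∈ Ico (j * b ^ (q - p)) ((j + 1) * b ^ (q - p)), XX p (n / b ^ (q - p)) * XX q n ≤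
            XX p j * (C1 * (Real.log q / q) * (b : ℝ) ^ (q - p)) := by
        intro j hj
        rw [mem_Ico] at hj
        have h6 : ∀ n ∈ Ico (j * b ^ (q - p)) ((j + 1) * b ^ (q - p)),
            XX p (n / b ^ (q - p)) * XX q n = XX p j * XX q n := by
          intro n hn
          rw [mem_Ico] at hn
          have : n / b ^ (q - p) = j := by
            rw [Nat.div_eq_iff (by positivity)]
            constructor
            · exact hn.1
            · have := hn.2
              rw [add_mul, one_mul] at this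
              omega
          rw [this]
        rw [Finset.sum_congr rfl h6, ← Finset.mul_sum, ← cnt_eq]
        refine mul_le_mul_of_nonneg_left (hup q (by omega) p hqp j ?_) (XX_nonneg _ _)
        have : 1 ≤ A * b ^ (p - m) := Nat.mul_pos (by omega) (by positivity)
        omega
      refine (Finset.sum_le_sum h5).trans ?_
      rw [← Finset.sum_mul]
      have e4 : (b : ℝ) ^ q = (b : ℝ) ^ p * (b : ℝ) ^ (q - p) := by
        rw [← pow_add]; congr 1; omega
      calc _ ≤ (D * (C1 * (Real.log p / p)) * (b : ℝ) ^ p) *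
            (C1 * (Real.log q / q) * (b : ℝ) ^ (q - p)) :=
            mul_le_mul_of_nonneg_right hfirst (by positivity)
        _ = D * C1 * C1 * (Real.log p / p * (Real.log q / q)) * (b : ℝ) ^ q := by rw [e4]; ring
        _ ≤ _ := by
            refine mul_le_mul_of_nonneg_right ?_ h4.le
            nlinarith [mul_nonneg hc1.le hR0, mul_nonneg hc1.le hR1, mul_nonneg hc2.le hR1,
              mul_nonneg hc3.le hR0, mul_nonneg hc3.le hR1]
    · -- near
      push Not at hqp
      rw [split_cells m z0 q A B (by omega) (by omega) hAB.le]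
      have hBb : B * b ^ (z0 - m) ≤ b ^ (2 * z0) := by
        have h6 : B ≤ b ^ B := (Nat.lt_pow_self (by omega)).le
        calc B * b ^ (z0 - m) ≤ b ^ B * b ^ B := by
              rw [hz0, Nat.add_sub_cancel_left]
              exact Nat.mul_le_mul_right _ h6
          _ = b ^ (B + B) := (pow_add _ _ _).symm
          _ ≤ b ^ (2 * z0) := Nat.pow_le_pow_right hbn (by omega)
      obtain ⟨hh, hhe⟩ : ∃ hh, q = p + hh := ⟨q - p, by omega⟩
      have h5 : ∀ j ∈ Ico (A * b ^ (z0 - m)) (B * b ^ (z0 - m)),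
          ∑ n ∈ Ico (j * b ^ (q - z0)) ((j + 1) * b ^ (q - z0)), XX p (n / b ^ (q - p)) * XX q n ≤
            C2 * ((Real.log p / p) ^ 2 + ((b : ℝ) ^ (q - p))⁻¹ * (Real.log p / p)) *
              (b : ℝ) ^ (q - z0) := by
        intro j hj
        rw [mem_Ico] at hj
        have h7 := hcp p hpP2 hh (by omega) (by omega) z0 hpz j (by
          have : 1 ≤ A * b ^ (z0 - m) := Nat.mul_pos (by omega) (by positivity)
          omega) (by omega)
        rw [← hhe] at h7
        have h8 : hh = q - p := by omega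
        rw [h8] at h7
        exact h7
      refine (Finset.sum_le_sum h5).trans ?_
      rw [Finset.sum_const, Nat.card_Ico, nsmul_eq_mul, ← Nat.sub_mul]
      have hlog : Real.log p / p ≤ 2 * (Real.log q / q) := by
        have h9 : Real.log p ≤ Real.log q := Real.log_le_log hp0 (by exact_mod_cast hq.le)
        have h10 : (q : ℝ) ≤ 2 * p := by exact_mod_cast hqp.le
        have h11 : 0 ≤ Real.log q := Real.log_natCast_nonneg q
        rw [div_le_iff₀ hp0, mul_assoc, div_mul_eq_mul_div, ← mul_div_assoc, le_div_iff₀ hq0]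
        have h12 : 0 ≤ Real.log p := Real.log_natCast_nonneg p
        nlinarith
      have e5 : (b : ℝ) ^ q = (b : ℝ) ^ m * ((b : ℝ) ^ (z0 - m) * (b : ℝ) ^ (q - z0)) := by
        rw [← pow_add, ← pow_add]; congr 1; omega
      have hbm : 1 ≤ (b : ℝ) ^ m := one_le_pow₀ hb1
      rw [Nat.cast_mul, Nat.cast_sub hAB.le, Nat.cast_pow, ← hDdef, e5]
      set Y : ℝ := (b : ℝ) ^ (z0 - m) * (b : ℝ) ^ (q - z0) with hY
      have hY0 : 0 < Y := by positivity
      have h13 : (Real.log p / p) ^ 2 ≤ 2 * (Real.log p / p * (Real.log q / q)) := by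
        rw [sq]
        calc Real.log p / p * (Real.log p / p) ≤ Real.log p / p * (2 * (Real.log q / q)) :=
              mul_le_mul_of_nonneg_left hlog hlp
          _ = _ := by ring
      have h14 : ((b : ℝ) ^ (q - p))⁻¹ * (Real.log p / p) = Real.log p / p / (b : ℝ) ^ (q - p) := by
        rw [div_eq_mul_inv (Real.log p / p)]; ring
      rw [h14]
      calc D * (b : ℝ) ^ (z0 - m) * (C2 * ((Real.log p / p) ^ 2 +
            Real.log p / p / (b : ℝ) ^ (q - p)) * (b : ℝ) ^ (q - z0))
          = D * C2 * ((Real.log p / p) ^ 2 + Real.log p / p / (b : ℝ) ^ (q - p)) * Y := by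
            rw [hY]; ring
        _ ≤ D * C2 * (2 * (Real.log p / p * (Real.log q / q) +
            Real.log p / p / (b : ℝ) ^ (q - p))) * Y := by
            refine mul_le_mul_of_nonneg_right (mul_le_mul_of_nonneg_left ?_ hc3.le) hY0.le
            linarith
        _ ≤ (D * C1 + D * C1 * C1 + 2 * (D * C2)) * (Real.log p / p * (Real.log q / q) +
            Real.log p / p / (b : ℝ) ^ (q - p)) * Y := by
            refine mul_le_mul_of_nonneg_right ?_ hY0.le
            nlinarith [mul_nonneg hc1.le (add_nonneg hR0 hR1), mul_nonneg hc2.le (add_nonneg hR0 hR1)]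
        _ ≤ (D * C1 + D * C1 * C1 + 2 * (D * C2)) * (Real.log p / p * (Real.log q / q) +
            Real.log p / p / (b : ℝ) ^ (q - p)) * ((b : ℝ) ^ m * Y) := by
            refine mul_le_mul_of_nonneg_left ?_ ?_
            · exact le_mul_of_one_le_left hY0.le hbm
            · exact mul_nonneg (by positivity) (add_nonneg hR0 hR1)


end Pool.Agent.N456.OW
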